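import Pool.Agent.Helper19.TGX.Goals
import Pool.Agent.Helper66.TG.EMB
import Pool.Agent.Helper87.TN.ACLA
import Pool.Agent.Helper69.TN.ACLB

/-!
# Project TGX (MP_a41896_nt), packet TGX-EMB2: embeddings with given images of two independent points
-/

set_option autoImplicit false
set_option linter.unusedSectionVars false

open Polynomial

namespace Pool.Agent.Helper59.TGX.EMB2

open WeierstrassCurve
open Pool.Agent.Helper29.BL Pool.Agent.Helper42.SG
open Pool.Agent.Helper60.T3 (WL IP)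
open Pool.Agent.Helper92.TG (mp)
open Pool.Agent.Helper92.TN (acl)
open Pool.Agent.Helper9.TN.TAUT (alg_mono' alg1 sgn ps_sq)
open Pool.Agent.Helper66.TG.EMB (Bk Bk_deg Bk_aeval mp_eq)

noncomputable section

/-- algebraic over the field generated by a family, algebraic over the polynomials in it -/
theorem alg_range2 {K F : Type} [Field K] [Field F] [Algebra K F] {v : Fin 2 → F} {z : F}
    (hz : IsAlgebraic (IntermediateField.adjoin K (Set.range v)) z) :
    IsAlgebraic (MvPolynomial.aeval v : MvPolynomial (Fin 2) K →ₐ[K] F).range z := by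
  have h1 := IntermediateField.isAlgebraic_adjoin_iff.mp hz
  refine alg_mono' Subtype.val_injective Subtype.val_injective (fun y => ?_) h1
  have h2 : (y : F) ∈ (MvPolynomial.aeval v : MvPolynomial (Fin 2) K →ₐ[K] F).range := by
    rw [← Algebra.adjoin_range_eq_range_aeval]
    exact y.2
  exact ⟨⟨y, h2⟩, rfl⟩

/-- a homomorphism with given values at an independent family -/
theorem lift2 {K F F' : Type} [Field K] [Field F] [Algebra K F] [Field F'] [IsAlgClosed F']
    [Algebra K F'] {v : Fin 2 → F} {v' : Fin 2 → F'} (hx : AlgebraicIndependent K v)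
    (hx' : AlgebraicIndependent K v')
    (ha : ∀ z : F, IsAlgebraic (MvPolynomial.aeval v : MvPolynomial (Fin 2) K →ₐ[K] F).range z) :
    ∃ j : F →ₐ[K] F', ∀ p : MvPolynomial (Fin 2) K,
      j (MvPolynomial.aeval v p) = MvPolynomial.aeval v' p := by
  have hi : Function.Injective (MvPolynomial.aeval v : MvPolynomial (Fin 2) K →ₐ[K] F) := hx
  have hi' : Function.Injective (MvPolynomial.aeval v' : MvPolynomial (Fin 2) K →ₐ[K] F') := hx'
  let f : MvPolynomial (Fin 2) K ≃ₐ[K]
    (MvPolynomial.aeval v : MvPolynomial (Fin 2) K →ₐ[K] F).range := AlgEquiv.ofInjective _ hi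
  let φ : (MvPolynomial.aeval v : MvPolynomial (Fin 2) K →ₐ[K] F).range →ₐ[K] F' :=
    (MvPolynomial.aeval v' : MvPolynomial (Fin 2) K →ₐ[K] F').comp f.symm
  have hφ : Function.Injective φ := hi'.comp f.symm.injective
  let : Algebra (MvPolynomial.aeval v : MvPolynomial (Fin 2) K →ₐ[K] F).range F' :=
    φ.toRingHom.toAlgebra
  have h1 : FaithfulSMul (MvPolynomial.aeval v : MvPolynomial (Fin 2) K →ₐ[K] F).range F' :=
    (faithfulSMul_iff_algebraMap_injective _ _).mpr hφ
  have h2 : Algebra.IsAlgebraic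
    (MvPolynomial.aeval v : MvPolynomial (Fin 2) K →ₐ[K] F).range F := ⟨ha⟩
  let j : F →ₐ[(MvPolynomial.aeval v : MvPolynomial (Fin 2) K →ₐ[K] F).range] F' :=
    IsAlgClosed.lift
  have hj : ∀ p : MvPolynomial (Fin 2) K,
      j (MvPolynomial.aeval v p) = MvPolynomial.aeval v' p := by
    intro p
    have h3 := j.commutes (f p)
    have h4 : algebraMap (MvPolynomial.aeval v : MvPolynomial (Fin 2) K →ₐ[K] F).range F (f p) =
      MvPolynomial.aeval v p := rfl
    have h5 : algebraMap (MvPolynomial.aeval v : MvPolynomial (Fin 2) K →ₐ[K] F).range F' (f p) =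
        MvPolynomial.aeval v' p := by
      show MvPolynomial.aeval v' (f.symm (f p)) = MvPolynomial.aeval v' p
      rw [f.symm_apply_apply]
    rw [h4, h5] at h3
    exact h3
  refine ⟨{ j.toRingHom with commutes' := fun c => ?_ }, hj⟩
  have h3 := hj (MvPolynomial.C c)
  rw [MvPolynomial.aeval_C, MvPolynomial.aeval_C] at h3
  exact h3

/-- the sign change at one of two independent points -/
theorem sg {k F : Type} [Field k] [CharZero k] [Field F] [IsAlgClosed F] [Algebra k F]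
    (W : Affine k) {x y ψ φ : F} (hx : x ∉ acl k {y})
    (ha : ∀ z : F, IsAlgebraic (IntermediateField.adjoin k ({x, y} : Set F)) z)
    (hψ : ψ ^ 2 = Bf (WL F W) x) (hφ : φ ^ 2 = Bf (WL F W) y) :
    ∃ σ : F →ₐ[k] F, σ x = x ∧ σ y = y ∧ σ ψ = -ψ ∧ σ φ = φ := by
  have A := Pool.Agent.Helper87.TN.ACLA.t k F {y} {y}
  have hy : y ∈ acl k {y} := A.2.1 rfl
  have ht : Transcendental (acl k {y}) x := by
    rcases A.2.2.2.2.2.2 inferInstance x with h | h
    · exact absurd h hx
    · exact h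
  have hφm : φ ∈ acl k {y} := by
    have h1 : Bf (WL F W) y ∈ acl k {y} := by
      rw [← Bk_aeval]
      have h2 := Polynomial.aeval_algHom_apply (acl k {y}).val ⟨y, hy⟩ (Bk W)
      have h3 : (acl k {y}).val ⟨y, hy⟩ = y := rfl
      rw [h3] at h2
      rw [h2]
      exact Subtype.property _
    have : IsAlgClosed (acl k {y}) := A.2.2.2.2.2.1 inferInstance
    obtain ⟨r, hr⟩ := IsAlgClosed.exists_pow_nat_eq (⟨Bf (WL F W) y, h1⟩ : acl k {y})
      (n := 2) (by norm_num)
    have h4 : (r : F) ^ 2 = Bf (WL F W) y := congrArg Subtype.val hr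
    have h5 : φ ^ 2 = (r : F) ^ 2 := by rw [hφ, h4]
    rcases sq_eq_sq_iff_eq_or_eq_neg.mp h5 with h | h
    · rw [h]; exact r.2
    · rw [h]; exact (-r).2
  have ha' : ∀ z : F, IsAlgebraic (IntermediateField.adjoin (acl k {y}) {x}) z := by
    intro z
    refine alg1 (S := ({x, y} : Set F)) (fun w hw => ?_) (ha z)
    rcases hw with rfl | rfl
    · exact Or.inr rfl
    · exact Or.inl hy
  have hB : ((Bk W).map (algebraMap k (acl k {y}))).natDegree = 3 := by
    rw [Polynomial.natDegree_map, Bk_deg]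
  obtain ⟨σ, h1, h2⟩ := sgn (ψ := ψ) ht ha' ((Bk W).map (algebraMap k (acl k {y})))
    (by rw [hB]; exact ⟨1, rfl⟩) (by rw [Polynomial.aeval_map_algebraMap, Bk_aeval]; exact hψ)
  refine ⟨(σ : F →ₐ[acl k {y}] F).restrictScalars k, h1, ?_, h2, ?_⟩
  · exact σ.commutes (⟨y, hy⟩ : acl k {y})
  · exact σ.commutes (⟨φ, hφm⟩ : acl k {y})

theorem range2 {F : Type} (x y : F) : Set.range ![x, y] = {x, y} := by
  rw [Matrix.range_cons, Matrix.range_cons, Matrix.range_empty, Set.union_empty]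
  rfl

theorem nots {k F : Type} [Field k] [Field F] [Algebra k F] {x y : F}
    (h : AlgebraicIndependent k ![x, y]) : x ∉ acl k {y} ∧ y ∉ acl k {x} := by
  have B := (Pool.Agent.Helper69.TN.ACLB.t k F).1 (Fin 2) ![x, y]
  have h1 := B.mp h
  have e0 : (![x, y] '' {j | j ≠ 0} : Set F) = {y} := by
    ext z
    constructor
    · rintro ⟨j, hj, rfl⟩
      fin_cases j
      · exact absurd rfl hj
      · rfl
    · rintro rfl
      exact ⟨1, by simp, rfl⟩
  have e1 : (![x, y] '' {j | j ≠ 1} : Set F) = {x} := by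
    ext z
    constructor
    · rintro ⟨j, hj, rfl⟩
      fin_cases j
      · rfl
      · exact absurd rfl hj
    · rintro rfl
      exact ⟨0, by simp, rfl⟩
  have h2 := h1 0
  have h3 := h1 1
  rw [e0] at h2
  rw [e1] at h3
  exact ⟨h2, h3⟩

theorem t : Pool.Agent.Helper19.TGX.EMB2 := by
  intro k _ _ W _ F F' _ _ _ _ _ _ _ _ P Q P' Q' h h' ha
  have tr : ∀ {G : Type} [Field G] [DecidableEq G] [Algebra k G] (R : (WL G W).Point),
      Transcendental k (xc R) → R ≠ 0 := by
    intro G _ _ _ R hR h0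
    subst h0
    exact hR isAlgebraic_zero
  have hP := tr P (h.transcendental 0)
  have hQ := tr Q (h.transcendental 1)
  have hP' := tr P' (h'.transcendental 0)
  have hQ' := tr Q' (h'.transcendental 1)
  obtain ⟨n1, n2⟩ := nots h
  obtain ⟨j, hj⟩ := lift2 h h' (fun z => alg_range2 (by rw [range2]; exact ha z))
  have jx : j (xc P) = xc P' := by
    have := hj (MvPolynomial.X 0)
    rwa [MvPolynomial.aeval_X, MvPolynomial.aeval_X] at this
  have jy : j (xc Q) = xc Q' := by
    have := hj (MvPolynomial.X 1)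
    rwa [MvPolynomial.aeval_X, MvPolynomial.aeval_X] at this
  have sP : j (ps P) ^ 2 = ps P' ^ 2 := by
    rw [← map_pow, ps_sq P hP, ps_sq P' hP', ← Bk_aeval, ← Bk_aeval, ← jx,
      Polynomial.aeval_algHom_apply]
  have sQ : j (ps Q) ^ 2 = ps Q' ^ 2 := by
    rw [← map_pow, ps_sq Q hQ, ps_sq Q' hQ', ← Bk_aeval, ← Bk_aeval, ← jy,
      Polynomial.aeval_algHom_apply]
  -- a sign change at `P` if necessary
  obtain ⟨σ, a1, a2, a3, a4⟩ : ∃ σ : F →ₐ[k] F, σ (xc P) = xc P ∧ σ (xc Q) = xc Q ∧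
      j (σ (ps P)) = ps P' ∧ σ (ps Q) = ps Q := by
    rcases sq_eq_sq_iff_eq_or_eq_neg.mp sP with e | e
    · exact ⟨AlgHom.id k F, rfl, rfl, e, rfl⟩
    · obtain ⟨σ, b1, b2, b3, b4⟩ := sg W n1 ha (ps_sq P hP) (ps_sq Q hQ)
      exact ⟨σ, b1, b2, by rw [b3, map_neg, e, neg_neg], b4⟩
  obtain ⟨τ, c1, c2, c3, c4⟩ : ∃ τ : F →ₐ[k] F, τ (xc P) = xc P ∧ τ (xc Q) = xc Q ∧
      j (σ (τ (ps Q))) = ps Q' ∧ τ (ps P) = ps P := by
    rcases sq_eq_sq_iff_eq_or_eq_neg.mp sQ with e | e
    · exact ⟨AlgHom.id k F, rfl, rfl, by show j (σ (ps Q)) = _; rw [a4, e], rfl⟩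
    · obtain ⟨τ, b1, b2, b3, b4⟩ := sg W n2 (fun z => by rw [Set.pair_comm]; exact ha z)
        (ps_sq Q hQ) (ps_sq P hP)
      exact ⟨τ, b2, b1, by rw [b3, map_neg, a4, map_neg, e, neg_neg], b4⟩
  refine ⟨(j.comp σ).comp τ, mp_eq _ hP hP' ?_ ?_, mp_eq _ hQ hQ' ?_ ?_⟩
  · show j (σ (τ (xc P))) = _
    rw [c1, a1, jx]
  · show j (σ (τ (ps P))) = _
    rw [c4, a3]
  · show j (σ (τ (xc Q))) = _
    rw [c2, a2, jy]
  · exact c3

end

end Pool.Agent.Helper59.TGX.EMB2
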